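import Pool.Agent.H71.CQ.Basic

/-!
# Isomorphic members have conjugate multiplicities (ISO)
-/

set_option autoImplicit false

open Set

namespace Pool.Agent.H2.CQ

open Pool.Agent.H71.CQ

section

variable {L : Type} {N : NF L} {e0 : ℕ → ℕ → L} {ι : Type} {e : ι → ℕ → ℕ → L}
  {g : ∀ i, {x // Wp N e0 x} ≃ {x // Wp N (e i) x}} {x : ι → ℕ} {m m' : ι → ℕ∞}

/-- the number of the component -/
def key : TV N e0 e x → Option (ι × ℕ)
  | .inl _ => none
  | .inr v => some (v.1, v.2.1)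

/-- algebraic points -/
def pa (m : ι → ℕ∞) (k : {k // Wp N e0 k}) : Am N e0 e x m := ⟨Sum.inl k, trivial⟩

/-- points of the components -/
def pc (m : ι → ℕ∞) (i : ι) (n : ℕ) (hn : (n : ℕ∞) < m i) (y : {y // Cm N (e i) (x i) y}) :
    Am N e0 e x m := ⟨Sum.inr ⟨i, n, y⟩, hn⟩

theorem tm_lr {i : ι} {n : ℕ} (hn : (n : ℕ∞) < m i) (k : {k // Wp N e0 k})
    (y : {y // Cm N (e i) (x i) y}) :
    TM N e0 e g x m (pa m k) (pc m i n hn y) = e i (g i k) y := rfl

theorem tm_rr {i : ι} {n : ℕ} (hn : (n : ℕ∞) < m i) (y z : {y // Cm N (e i) (x i) y}) :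
    TM N e0 e g x m (pc m i n hn y) (pc m i n hn z) = e i y z := by
  show TE N e0 e g x (Sum.inr ⟨i, n, y⟩) (Sum.inr ⟨i, n, z⟩) = e i y z
  simp only [TE]
  exact if_pos ⟨trivial, trivial⟩

theorem chain {i : ι} {n : ℕ} (hn : (n : ℕ∞) < m i) {y z : ℕ} (hy : Cm N (e i) (x i) y)
    (h : Cm N (e i) y z) : ∀ hz : Cm N (e i) (x i) z, Relation.ReflTransGen
      (fun a b : Am N e0 e x m => a ∉ {a : Am N e0 e x m | key a.1 = none} ∧
        b ∉ {a : Am N e0 e x m | key a.1 = none} ∧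
        (¬ Op N (TM N e0 e g x m a b) ∨ ¬ Op N (TM N e0 e g x m b a)))
      (pc m i n hn ⟨y, hy⟩) (pc m i n hn ⟨z, hz⟩) := by
  induction h with
  | refl => intro hz; exact Relation.ReflTransGen.refl
  | tail hab hbc ih =>
    intro hz
    refine (ih (hy.trans hab)).tail ⟨?_, ?_, ?_⟩
    · intro h
      exact absurd (show some (i, n) = none from h) (by simp)
    · intro h
      exact absurd (show some (i, n) = none from h) (by simp)
    · rw [tm_rr, tm_rr]
      exact hbc.2.2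

theorem tstruct (hWTR : T_WTR) (hWCH : T_WCH) (hF : HFre N) (hR : Rep N e0 e g x)
    (hs : ∀ q, (Srt e0 q).Infinite ↔ (Srt (TM N e0 e g x m) q).Infinite) :
    (∀ a : Am N e0 e x m, Wp N (TM N e0 e g x m) a ↔ key a.1 = none) ∧
      ∀ a : Am N e0 e x m, key a.1 ≠ none → ∀ b : Am N e0 e x m,
        Cm N (TM N e0 e g x m) a b ↔ key b.1 ≠ none ∧ key a.1 = key b.1 := by
  have hW : ∀ k, Wp N (TM N e0 e g x m) (pa m k) := by
    refine hWTR L N ℕ _ e0 (TM N e0 e g x m) (fun k => pa m k) (fun k k' => rfl) ?_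
    intro k hk
    by_contra hc
    exact ((hs _).2 hc) hk
  have hnw : ∀ i (y : {y // Cm N (e i) (x i) y}), ¬ Wp N (e i) y :=
    fun i y => y.2.not_wp (hR.hx i)
  have hinf : ∀ i (y : {y // Cm N (e i) (x i) y}), (Srt e0 (e i y y)).Infinite :=
    fun i y => (hR.s i _).2 (srt_inf (hnw i y))
  refine hWCH L N (Am N e0 e x m) (TM N e0 e g x m) {a | key a.1 = none}
    (fun a b => key a.1 = key b.1) ?_ ?_ ?_ ?_ ?_ (fun _ => rfl) (fun _ _ h => h.symm)
    (fun _ _ _ h h' => h.trans h')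
  · rintro ⟨k | v, hk⟩ h
    · exact hW k
    · exact absurd (show some (v.1, v.2.1) = none from h) (by simp)
  · rintro ⟨k | v, hk⟩ h ⟨k' | ⟨i, n, y⟩, hk'⟩ h'
    · exact absurd rfl h'
    · show Op N (e i (g i k) y)
      exact op_of_wp (g i k).2 (hnw i y)
    · exact absurd (show some (v.1, v.2.1) = none from h) (by simp)
    · exact absurd (show some (v.1, v.2.1) = none from h) (by simp)
  · rintro ⟨k | ⟨i, n, y⟩, hk⟩ h
    · exact absurd rfl h
    · refine (hs _).1 ?_
      have := hinf i y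
      rw [← tm_rr (g := g) (m := m) hk y y] at this
      exact this
  · rintro ⟨k | ⟨i, n, y⟩, hk⟩ h ⟨k' | ⟨j, l, z⟩, hk'⟩ h' hc
    · exact absurd rfl h
    · exact absurd rfl h
    · exact absurd rfl h'
    · have hne : ¬ (i = j ∧ n = l) := by
        rintro ⟨rfl, rfl⟩
        exact hc rfl
      have e1 : TM N e0 e g x m ⟨Sum.inr ⟨i, n, y⟩, hk⟩ ⟨Sum.inr ⟨j, l, z⟩, hk'⟩ =
          fr N (e i y y) (e j z z) := by
        show TE N e0 e g x (Sum.inr ⟨i, n, y⟩) (Sum.inr ⟨j, l, z⟩) = _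
        simp only [TE]
        exact if_neg hne
      rw [e1]
      exact (fr_mem (hF e0 hR.m0 _ _ (hinf i y) (hinf j z))).2.2.2.2.1
  · rintro ⟨k | ⟨i, n, y⟩, hk⟩ h ⟨k' | ⟨j, l, z⟩, hk'⟩ h' hc
    · exact absurd rfl h
    · exact absurd rfl h
    · exact absurd rfl h'
    · have h1 : some (i, n) = some (j, l) := hc
      simp only [Option.some.injEq, Prod.mk.injEq] at h1
      obtain ⟨rfl, rfl⟩ := h1
      exact chain hk y.2 (y.2.symm.trans z.2) z.2

/-- the algebraic part of the structure with multiplicities -/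
noncomputable def eqA
    (hS : ∀ a : Am N e0 e x m, Wp N (TM N e0 e g x m) a ↔ key a.1 = none) :
    {k // Wp N e0 k} ≃ {a // Wp N (TM N e0 e g x m) a} :=
  Equiv.ofBijective (fun k => ⟨pa m k, (hS (pa m k)).2 rfl⟩) <| by
    constructor
    · intro k k' h
      have h1 := congrArg (fun a => a.1.1) h
      exact Sum.inl.inj h1
    · rintro ⟨⟨k | v, hk⟩, ha⟩
      · exact ⟨k, rfl⟩
      · exact absurd (show some (v.1, v.2.1) = none from (hS _).1 ha) (by simp)

theorem eqA_coe (hS : ∀ a : Am N e0 e x m, Wp N (TM N e0 e g x m) a ↔ key a.1 = none)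
    (k : {k // Wp N e0 k}) : ((eqA (g := g) hS k : {a // Wp N (TM N e0 e g x m) a}) : Am N e0 e x m)
      = pa m k := rfl

theorem piece_pi (hS : (∀ a : Am N e0 e x m, Wp N (TM N e0 e g x m) a ↔ key a.1 = none) ∧
      ∀ a : Am N e0 e x m, key a.1 ≠ none → ∀ b : Am N e0 e x m,
        Cm N (TM N e0 e g x m) a b ↔ key b.1 ≠ none ∧ key a.1 = key b.1) {i : ι} {n : ℕ}
    (hn : (n : ℕ∞) < m i) (z : {y // Cm N (e i) (x i) y}) :
    PI N (e i) (TM N e0 e g x m) ((g i).symm.trans (eqA hS.1)) (z : ℕ) (pc m i n hn z) := by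
  have hz : key (pc (N := N) (e0 := e0) m i n hn z).1 ≠ none := by
    intro h
    exact absurd (show some (i, n) = none from h) (by simp)
  let f : {y // Cm N (e i) (z : ℕ) y} → {b // Cm N (TM N e0 e g x m) (pc m i n hn z) b} :=
    fun y => ⟨pc m i n hn ⟨y, z.2.trans y.2⟩, (hS.2 _ hz _).2
      ⟨fun h => absurd (show some (i, n) = none from h) (by simp), rfl⟩⟩
  have hf : Function.Bijective f := by
    constructor
    · intro y y' h
      have h1 : (Sum.inr ⟨i, n, ⟨y, z.2.trans y.2⟩⟩ : TV N e0 e x) =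
        Sum.inr ⟨i, n, ⟨y', z.2.trans y'.2⟩⟩ := congrArg (fun a => a.1.1) h
      simp only [Sum.inr.injEq, Sigma.mk.injEq, heq_eq_eq, Prod.mk.injEq, true_and,
        Subtype.mk.injEq] at h1
      exact Subtype.ext h1
    · rintro ⟨⟨k | ⟨j, l, w⟩, hk⟩, hb⟩
      · exact absurd rfl ((hS.2 _ hz _).1 hb).1
      · have h1 : some (i, n) = some (j, l) := ((hS.2 _ hz _).1 hb).2
        simp only [Option.some.injEq, Prod.mk.injEq] at h1
        obtain ⟨rfl, rfl⟩ := h1
        exact ⟨⟨w, z.2.symm.trans w.2⟩, rfl⟩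
  refine ⟨Equiv.ofBijective f hf, fun y y' => ?_, fun k y => ?_⟩
  · exact tm_rr hn _ _
  · show TM N e0 e g x m (pa m ((g i).symm k)) (pc m i n hn ⟨y, z.2.trans y.2⟩) = e i k y
    rw [tm_lr, Equiv.apply_symm_apply]

theorem encard_lt (c : ℕ∞) : {n : ℕ | (n : ℕ∞) < c}.encard = c := by
  induction c with
  | top =>
    have : {n : ℕ | (n : ℕ∞) < ⊤} = Set.univ := by
      ext n
      simp
    rw [this]
    exact Set.infinite_univ.encard_eq
  | coe c =>
    have : {n : ℕ | (n : ℕ∞) < (c : ℕ∞)} = ((Finset.range c : Finset ℕ) : Set ℕ) := by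
      ext n
      simp
    rw [this, Set.encard_coe_eq_coe_finsetCard, Finset.card_range]

theorem le_mult (hWTR : T_WTR) (hWCH : T_WCH) (hF : HFre N) (hR : Rep N e0 e g x)
    (hs : ∀ q, (Srt e0 q).Infinite ↔ (Srt (TM N e0 e g x m) q).Infinite)
    (hs' : ∀ q, (Srt e0 q).Infinite ↔ (Srt (TM N e0 e g x m') q).Infinite)
    (G : Am N e0 e x m ≃ Am N e0 e x m') (hG : IsIso (TM N e0 e g x m) (TM N e0 e g x m') G)
    (h : {x // Wp N e0 x} ≃ {x // Wp N e0 x}) (hh : ∀ k, G (pa m k) = pa m' (h k)) {i i' : ι}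
    (hA : Ac N e0 e g x h i i') : m i ≤ m' i' := by
  have S := tstruct hWTR hWCH hF hR hs
  have S' := tstruct hWTR hWCH hF hR hs'
  have hw : ∀ k, wmap (N := N) hG (eqA S.1 k) = eqA S'.1 (h k) := fun k => Subtype.ext (hh k)
  have key1 : ∀ (n : ℕ) (hn : (n : ℕ∞) < m i), ∃ n' : ℕ, ∃ hn' : (n' : ℕ∞) < m' i', ∃ z,
      G (pc m i n hn ⟨x i, cm_refl _⟩) = pc m' i' n' hn' z := by
    intro n hn
    have hna : ¬ Wp N (TM N e0 e g x m) (pc m i n hn ⟨x i, cm_refl _⟩) := by
      intro h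
      exact absurd (show some (i, n) = none from (S.1 _).1 h) (by simp)
    have hnb : ¬ Wp N (TM N e0 e g x m') (G (pc m i n hn ⟨x i, cm_refl _⟩)) := by
      rw [hG.wp]
      exact hna
    have p1 := piece_pi (g := g) S hn ⟨x i, cm_refl _⟩
    have p2 := hG.pi (N := N) (pc m i n hn ⟨x i, cm_refl _⟩)
    rcases hGa : G (pc m i n hn ⟨x i, cm_refl _⟩) with ⟨k | ⟨j, n', z⟩, hb⟩
    · rw [hGa] at hnb
      exact absurd ((S'.1 _).2 rfl) hnb
    · rw [hGa] at p2
      have p3 := piece_pi (g := g) S' (i := j) (n := n') hb z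
      have p4 := (p1.trans (p2.trans p3.symm)).of_cm (cm_refl _) z.2.symm
      have p5 := p4.symm.trans hA
      have hun := hR.un j i'
      have e1 : ((((g i).symm.trans (eqA S.1)).trans ((wmap (N := N) hG).trans
          ((g j).symm.trans (eqA S'.1)).symm)).symm.trans
          ((g i).symm.trans (h.trans (g i')))) = (g j).symm.trans (g i') := by
        apply Equiv.ext
        intro k
        have h2 : (wmap (N := N) hG).symm (eqA S'.1 ((g j).symm k)) =
            eqA S.1 (h.symm ((g j).symm k)) := by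
          rw [Equiv.symm_apply_eq, hw, Equiv.apply_symm_apply]
        show g i' (h ((g i).symm (g i ((eqA S.1).symm ((wmap (N := N) hG).symm
          (eqA S'.1 ((g j).symm k))))))) = g i' ((g j).symm k)
        rw [h2, Equiv.symm_apply_apply, Equiv.symm_apply_apply, Equiv.apply_symm_apply]
      rw [e1] at p5
      obtain rfl := hun p5
      exact ⟨n', hb, z, rfl⟩
  choose φ hφ z hz using key1
  classical
  rw [← encard_lt (m i), ← encard_lt (m' i')]
  refine Set.encard_le_encard_of_injOn (f := fun n => if hn : (n : ℕ∞) < m i then φ n hn else 0)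
    ?_ ?_
  · intro n hn
    have hn' : (n : ℕ∞) < m i := hn
    show ((if hn : (n : ℕ∞) < m i then φ n hn else 0 : ℕ) : ℕ∞) < m' i'
    rw [dif_pos hn']
    exact hφ n hn'
  · intro n1 h1 n2 h2 he
    have h1' : (n1 : ℕ∞) < m i := h1
    have h2' : (n2 : ℕ∞) < m i := h2
    simp only [dif_pos h1', dif_pos h2'] at he
    have c1 : Cm N (TM N e0 e g x m') (G (pc m i n1 h1' ⟨x i, cm_refl _⟩))
        (G (pc m i n2 h2' ⟨x i, cm_refl _⟩)) := by
      rw [hz n1 h1', hz n2 h2']
      refine (S'.2 _ ?_ _).2 ⟨?_, ?_⟩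
      · intro h
        exact absurd (show some (i', φ n1 h1') = none from h) (by simp)
      · intro h
        exact absurd (show some (i', φ n2 h2') = none from h) (by simp)
      · show some (i', φ n1 h1') = some (i', φ n2 h2')
        rw [he]
    rw [hG.cm] at c1
    have c2 := ((S.2 _ (by
      intro h
      exact absurd (show some (i, n1) = none from h) (by simp)) _).1 c1).2
    have c3 : some (i, n1) = some (i, n2) := c2
    simp only [Option.some.injEq, Prod.mk.injEq, true_and] at c3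
    exact c3

end

theorem pf_ISO (hWTR : T_WTR) (hWCH : T_WCH) : T_ISO := by
  intro L N _ hF _ e0 ι e g x hR m m' hs hs' hiso
  obtain ⟨G, hG⟩ := hiso
  have S := tstruct hWTR hWCH hF hR hs
  have S' := tstruct hWTR hWCH hF hR hs'
  let h : {x // Wp N e0 x} ≃ {x // Wp N e0 x} :=
    (eqA S.1).trans ((wmap (N := N) hG).trans (eqA S'.1).symm)
  have hh : ∀ k, G (pa m k) = pa m' (h k) := by
    intro k
    have h1 : eqA S'.1 (h k) = wmap (N := N) hG (eqA S.1 k) := by
      show eqA S'.1 ((eqA S'.1).symm (wmap (N := N) hG (eqA S.1 k))) = _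
      rw [Equiv.apply_symm_apply]
    have h2 := congrArg Subtype.val h1
    exact h2.symm
  have hh' : ∀ k, G.symm (pa m' k) = pa m (h.symm k) := by
    intro k
    rw [Equiv.symm_apply_eq, hh, Equiv.apply_symm_apply]
  refine ⟨h, ?_, ?_⟩
  · intro k k'
    have h1 := hG (pa m k) (pa m k')
    rw [hh, hh] at h1
    exact h1
  · intro i i' hA
    apply le_antisymm
    · exact le_mult hWTR hWCH hF hR hs' hs G.symm hG.symm h.symm hh' (PI.symm hA)
    · exact le_mult hWTR hWCH hF hR hs hs' G hG h hh hA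

end Pool.Agent.H2.CQ
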